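import Pool.Agent.H61R3.KD4

/-!
An abstract bound for the dimension of the kernel of a sum of operators of the group von Neumann
algebra which is orthogonal on a subspace that contains the basis vector at the identity.
-/

set_option autoImplicit false
set_option linter.unusedSectionVars false

open scoped ENNReal InnerProductSpace
open Filter Topology

noncomputable section

namespace Pool.Agent.D0H79.KC

open H61R3NG

variable {G : Type*} [Group G]

section sq

variable {H : Type*} [NormedAddCommGroup H] [InnerProductSpace ℂ H] [CompleteSpace H]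

/-- a bounded inverse square root of `B + ε` -/
lemma inv_sqrt (B : H →L[ℂ] H) (hB : 0 ≤ B) (ε : ℝ) (hε : 0 < ε) :
    ∃ T : H →L[ℂ] H, IsSelfAdjoint T ∧ (∀ R : H →L[ℂ] H, B * R = R * B → T * R = R * T) ∧
      T * T * B + (ε : ℂ) • (T * T) = 1 ∧ T * B = B * T ∧ ‖(ε : ℂ) • (T * T)‖ ≤ 1 := by
  have hBs : IsSelfAdjoint B := hB.isSelfAdjoint
  set g : ℝ → ℝ := fun x => (Real.sqrt (max x 0 + ε))⁻¹ with hg
  have hpos : ∀ x : ℝ, 0 < max x 0 + ε := fun x => by
    have := le_max_right x 0
    linarith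
  have hc : ContinuousOn g (spectrum ℝ B) := by
    apply Continuous.continuousOn
    rw [hg]
    refine Continuous.inv₀ (by fun_prop) fun x => ?_
    exact (Real.sqrt_pos.2 (hpos x)).ne'
  have hspec : ∀ x ∈ spectrum ℝ B, 0 ≤ x := fun x hx => spectrum_nonneg_of_nonneg hB hx
  have h1 : cfc g B * cfc g B = cfc (fun x => g x * g x) B := (cfc_mul g g B hc hc).symm
  have hc2 : ContinuousOn (fun x => g x * g x) (spectrum ℝ B) := hc.mul hc
  have h3 : ((ε : ℂ) • cfc (fun x => g x * g x) B : H →L[ℂ] H)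
      = cfc (fun x => ε * (g x * g x)) B := by
    rw [cfc_const_mul ε _ B hc2]
    rfl
  refine ⟨cfc g B, cfc_predicate g B, ?_, ?_, ?_, ?_⟩
  · intro R hR
    have h1 : Commute B R := hR
    exact (h1.cfc_real g).eq
  · have h2 : cfc (fun x => g x * g x) B * B = cfc (fun x => g x * g x * x) B := by
      have e1 := cfc_mul (fun x => g x * g x) (fun x : ℝ => x) B hc2 (by fun_prop)
      rw [e1, cfc_id' ℝ B hBs]
    rw [h1, h2, h3]
    have e2 := cfc_add (a := B) (fun x => g x * g x * x) (fun x => ε * (g x * g x))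
      (hc2.mul (by fun_prop)) (hc2.const_mul ε)
    rw [← e2, ← cfc_const_one ℝ B hBs]
    refine cfc_congr fun x hx => ?_
    have h4 := hpos x
    have h5 : max x 0 = x := max_eq_left (hspec x hx)
    have h6 : Real.sqrt (max x 0 + ε) * Real.sqrt (max x 0 + ε) = max x 0 + ε :=
      Real.mul_self_sqrt h4.le
    have h7 : g x * g x * (x + ε) = 1 := by
      simp only [hg]
      rw [← mul_inv, h6, h5]
      rw [h5] at h4
      exact inv_mul_cancel₀ h4.ne'
    show g x * g x * x + ε * (g x * g x) = 1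
    linarith
  · have h1 : Commute B B := Commute.refl B
    exact (h1.cfc_real g).eq
  · rw [h1, h3]
    refine norm_cfc_le zero_le_one fun x hx => ?_
    have h4 := hpos x
    have h6 : Real.sqrt (max x 0 + ε) * Real.sqrt (max x 0 + ε) = max x 0 + ε :=
      Real.mul_self_sqrt h4.le
    have h7 : g x * g x = (max x 0 + ε)⁻¹ := by
      simp only [hg]
      rw [← mul_inv, h6]
    rw [h7, Real.norm_eq_abs, abs_of_nonneg (by positivity), ← div_eq_mul_inv, div_le_one h4]
    have := le_max_right x 0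
    linarith

end sq

lemma norm_dl (x : G) : ‖(dl x : E2 G)‖ = 1 := by
  have h := norm_sq_eq_re_inner (𝕜 := ℂ) (dl x : E2 G)
  rw [inner_dl_left, dl_apply, if_pos rfl] at h
  have h7 : ‖(dl x : E2 G)‖ ^ 2 = 1 := by simpa using h
  nlinarith [norm_nonneg (dl x : E2 G)]

/-- an orthogonal sum bound -/
lemma norm_sum_sq_le {E ι : Type*} [SeminormedAddCommGroup E] (s : Finset ι) (v : ι → E) :
    ‖∑ i ∈ s, v i‖ ^ 2 ≤ s.card * ∑ i ∈ s, ‖v i‖ ^ 2 := by
  have h1 := pow_le_pow_left₀ (norm_nonneg _) (norm_sum_le s v) 2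
  have h2 := sq_sum_le_card_mul_sum_sq (s := s) (f := fun i => ‖v i‖)
  exact h1.trans h2

set_option maxHeartbeats 4000000 in
/-- **The abstract bound.** -/
theorem abs_bound {ι : Type*} (s : Finset ι) (S : ι → (E2 G →L[ℂ] E2 G)) (hS : ∀ i, Com (S i))
    (Q : E2 G →L[ℂ] E2 G) (hQ1 : Q (dl 1) = dl 1)
    (hQc : ∀ i ∈ s, (ContinuousLinearMap.adjoint (S i) * S i) * Q
      = Q * (ContinuousLinearMap.adjoint (S i) * S i))
    (horth : ∀ u, Q u = u → ‖(∑ i ∈ s, S i) u‖ ^ 2 = ∑ i ∈ s, ‖S i u‖ ^ 2)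
    (W : Submodule ℂ (E2 G)) [W.HasOrthogonalProjection]
    (hW : ∀ f, f ∈ W ↔ ∀ i ∈ s, S i f = 0) :
    1 - kd W ≤ (s.card : ℝ) *
      (1 - kd (LinearMap.ker ((∑ i ∈ s, S i : E2 G →L[ℂ] E2 G) : E2 G →ₗ[ℂ] E2 G))) := by
  set A : E2 G →L[ℂ] E2 G := ∑ i ∈ s, S i with hA
  set B : E2 G →L[ℂ] E2 G := ∑ i ∈ s, ContinuousLinearMap.adjoint (S i) * S i with hB
  have hAcom : Com A := by
    have : ∀ t : Finset ι, Com (∑ i ∈ t, S i : E2 G →L[ℂ] E2 G) := by
      intro t
      classical
      induction t using Finset.induction_on with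
      | empty => intro g f; simp
      | insert i t hi ih =>
        rw [Finset.sum_insert hi]
        exact (hS i).add ih
    exact this s
  have hBcom : Com B := by
    have : ∀ t : Finset ι,
        Com (∑ i ∈ t, ContinuousLinearMap.adjoint (S i) * S i : E2 G →L[ℂ] E2 G) := by
      intro t
      classical
      induction t using Finset.induction_on with
      | empty => intro g f; simp
      | insert i t hi ih =>
        rw [Finset.sum_insert hi]
        exact ((hS i).adjoint.mul (hS i)).add ih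
    exact this s
  -- the quadratic form
  have hBf : ∀ f, ⟪f, B f⟫_ℂ = ((∑ i ∈ s, ‖S i f‖ ^ 2 : ℝ) : ℂ) := by
    intro f
    rw [hB, _root_.sum_apply, inner_sum]
    push_cast
    refine Finset.sum_congr rfl fun i _ => ?_
    show ⟪f, ContinuousLinearMap.adjoint (S i) (S i f)⟫_ℂ = _
    rw [ContinuousLinearMap.adjoint_inner_right, inner_self_eq_norm_sq_to_K]
    rfl
  have hBsa : IsSelfAdjoint B := by
    rw [hB]
    exact isSelfAdjoint_sum _ fun i _ => IsSelfAdjoint.star_mul_self (S i)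
  have hB0 : 0 ≤ B := by
    rw [hB]
    exact Finset.sum_nonneg fun i _ => star_mul_self_nonneg (S i)
  have hBW : ∀ f, B f = 0 ↔ f ∈ W := by
    intro f
    rw [hW]
    constructor
    · intro hf
      have h1 := hBf f
      rw [hf, inner_zero_right] at h1
      have h2 : ∑ i ∈ s, ‖S i f‖ ^ 2 = 0 := by exact_mod_cast h1.symm
      rw [Finset.sum_eq_zero_iff_of_nonneg (fun i _ => by positivity)] at h2
      intro i hi
      have := h2 i hi
      exact norm_eq_zero.1 (pow_eq_zero_iff (two_ne_zero) |>.1 this)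
    · intro hf
      rw [hB, _root_.sum_apply]
      refine Finset.sum_eq_zero fun i hi => ?_
      show ContinuousLinearMap.adjoint (S i) (S i f) = 0
      rw [hf i hi, map_zero]
  have hQB : B * Q = Q * B := by
    rw [hB, Finset.sum_mul, Finset.mul_sum]
    exact Finset.sum_congr rfl fun i hi => hQc i hi
  set d : ℝ := kd (LinearMap.ker (A : E2 G →ₗ[ℂ] E2 G)) with hd
  -- the bound with `ε`
  have key : ∀ ε : ℝ, 0 < ε → ∀ T : E2 G →L[ℂ] E2 G, IsSelfAdjoint T →
      (∀ R : E2 G →L[ℂ] E2 G, B * R = R * B → T * R = R * T) →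
      T * T * B + (ε : ℂ) • (T * T) = 1 → T * B = B * T →
      1 - ε * ‖T (dl 1)‖ ^ 2 ≤ s.card * (1 - d) := by
    intro ε hε T hT hTc hTB hTB'
    have hTadj : ContinuousLinearMap.adjoint T = T := hT
    have hTcom : Com T := by
      intro g f
      have h2 := hTc (Rt g).toContinuousLinearMap (by ext1 x; exact hBcom g x)
      exact congrArg (fun T : E2 G →L[ℂ] E2 G => T f) h2
    have hTQ : T * Q = Q * T := hTc Q hQB
    -- `‖T f‖` and the form
    have hform : ∀ f, ∑ i ∈ s, ‖S i (T f)‖ ^ 2 = ‖f‖ ^ 2 - ε * ‖T f‖ ^ 2 := by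
      intro f
      have h1 := hBf (T f)
      have h2 : ⟪T f, B (T f)⟫_ℂ = ⟪f, (T * T * B) f⟫_ℂ := by
        rw [← ContinuousLinearMap.adjoint_inner_right, hTadj]
        have h3 : T * (B * T) = T * T * B := by rw [← hTB', mul_assoc]
        show ⟪f, (T * (B * T)) f⟫_ℂ = _
        rw [h3]
      have h3 : (T * T * B) f = f - (ε : ℂ) • T (T f) := by
        have h4 : T * T * B = 1 - (ε : ℂ) • (T * T) := by rw [← hTB]; abel
        rw [h4]
        rfl
      have h5 : ⟪f, T (T f)⟫_ℂ = ((‖T f‖ ^ 2 : ℝ) : ℂ) := by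
        rw [← hTadj, ContinuousLinearMap.adjoint_inner_right, hTadj, inner_self_eq_norm_sq_to_K]
        norm_cast
      rw [h2, h3, inner_sub_right, inner_smul_right, h5, inner_self_eq_norm_sq_to_K] at h1
      have h6 : ((‖f‖ ^ 2 - ε * ‖T f‖ ^ 2 : ℝ) : ℂ) = ((∑ i ∈ s, ‖S i (T f)‖ ^ 2 : ℝ) : ℂ) := by
        rw [← h1]
        push_cast
        rfl
      exact_mod_cast h6.symm
    set β : E2 G →L[ℂ] E2 G := A * T with hβ
    have hβcom : Com β := hAcom.mul hTcom
    have hβn : ‖β‖ ≤ Real.sqrt s.card := by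
      refine ContinuousLinearMap.opNorm_le_bound _ (Real.sqrt_nonneg _) fun f => ?_
      apply le_of_sq_le_sq _ (by positivity)
      rw [mul_pow, Real.sq_sqrt (Nat.cast_nonneg _)]
      have h1 : β f = ∑ i ∈ s, S i (T f) := by
        show A (T f) = _
        rw [hA, _root_.sum_apply]
      rw [h1]
      refine (norm_sum_sq_le s _).trans ?_
      refine mul_le_mul_of_nonneg_left ?_ (Nat.cast_nonneg _)
      rw [hform]
      have : 0 ≤ ε * ‖T f‖ ^ 2 := by positivity
      linarith
    -- the trace from the right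
    have htr1 : trc (ContinuousLinearMap.adjoint β * β) = ((1 - ε * ‖T (dl 1)‖ ^ 2 : ℝ) : ℂ) := by
      have h1 : trc (ContinuousLinearMap.adjoint β * β) = ((‖β (dl 1)‖ ^ 2 : ℝ) : ℂ) := by
        unfold trc
        show ⟪dl (1:G), ContinuousLinearMap.adjoint β (β (dl 1))⟫_ℂ = _
        rw [ContinuousLinearMap.adjoint_inner_right, inner_self_eq_norm_sq_to_K]
        norm_cast
      rw [h1]
      congr 1
      have h2 : Q (T (dl 1)) = T (dl (1:G)) := by
        have h3 : (T * Q) (dl (1:G)) = (Q * T) (dl 1) := by rw [hTQ]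
        have h4 : T (Q (dl (1:G))) = Q (T (dl 1)) := h3
        rw [← h4, hQ1]
      show ‖A (T (dl 1))‖ ^ 2 = _
      rw [horth _ h2, hform]
      rw [norm_dl, one_pow]
    -- the trace from the left
    have hadjβ : ContinuousLinearMap.adjoint β = T * ContinuousLinearMap.adjoint A := by
      rw [hβ, ContinuousLinearMap.mul_def, ContinuousLinearMap.adjoint_comp, hTadj]
      rfl
    set V := LinearMap.ker ((ContinuousLinearMap.adjoint A : E2 G →L[ℂ] E2 G) : E2 G →ₗ[ℂ] E2 G)
      with hV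
    have hkd : kd V = d := (kd_adjoint A hAcom).symm
    have htr2 : trc (β * ContinuousLinearMap.adjoint β) =
        ((‖ContinuousLinearMap.adjoint β (dl 1)‖ ^ 2 : ℝ) : ℂ) := by
      unfold trc
      show ⟪dl (1:G), β (ContinuousLinearMap.adjoint β (dl 1))⟫_ℂ = _
      rw [← ContinuousLinearMap.adjoint_inner_left, inner_self_eq_norm_sq_to_K]
      norm_cast
    have hproj : ContinuousLinearMap.adjoint β (dl 1)
        = ContinuousLinearMap.adjoint β (Vᗮ.starProjection (dl 1)) := by
      have h1 : V.starProjection (dl (1:G)) + Vᗮ.starProjection (dl 1) = dl 1 :=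
        Submodule.starProjection_add_starProjection_orthogonal _
      have h2 : ContinuousLinearMap.adjoint β (V.starProjection (dl (1:G))) = 0 := by
        rw [hadjβ]
        show T (ContinuousLinearMap.adjoint A (V.starProjection (dl (1:G)))) = 0
        have h3 : V.starProjection (dl (1:G)) ∈ V := Submodule.starProjection_apply_mem _ _
        have h4 : ContinuousLinearMap.adjoint A (V.starProjection (dl (1:G))) = 0 := h3
        rw [h4, map_zero]
      conv_lhs => rw [← h1, map_add, h2, zero_add]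
    have h8 : ‖ContinuousLinearMap.adjoint β (dl 1)‖ ^ 2 ≤ s.card * (1 - d) := by
      rw [hproj]
      have h1 : ‖ContinuousLinearMap.adjoint β‖ ≤ Real.sqrt s.card := by
        rw [LinearIsometryEquiv.norm_map]
        exact hβn
      have h2 := (ContinuousLinearMap.adjoint β).le_opNorm (Vᗮ.starProjection (dl 1))
      have h3 := h2.trans (mul_le_mul_of_nonneg_right h1 (norm_nonneg _))
      have h4 := pow_le_pow_left₀ (norm_nonneg _) h3 2
      rw [mul_pow, Real.sq_sqrt (Nat.cast_nonneg _)] at h4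
      have h5 : ‖Vᗮ.starProjection (dl (1:G))‖ ^ 2 = 1 - d := by
        have h6 := kd_orth V
        rw [hkd] at h6
        exact h6
      rw [h5] at h4
      exact h4
    have h9 := trc_comm hβcom.adjoint hβcom
    rw [htr1, htr2] at h9
    have h10 : 1 - ε * ‖T (dl 1)‖ ^ 2 = ‖ContinuousLinearMap.adjoint β (dl 1)‖ ^ 2 := by
      exact_mod_cast h9
    rw [h10]
    exact h8
  -- the limit
  refine le_of_forall_pos_le_add fun η hη => ?_
  -- approximate the component of the basis vector
  have hWB : (LinearMap.range (B : E2 G →ₗ[ℂ] E2 G))ᗮ = W := by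
    ext x
    rw [← hBW, Submodule.mem_orthogonal']
    have h2 : ContinuousLinearMap.adjoint B = B := hBsa
    constructor
    · intro hx
      refine ext_inner_right ℂ fun y => ?_
      rw [inner_zero_left, ← h2, ContinuousLinearMap.adjoint_inner_left]
      exact hx _ ⟨y, rfl⟩
    · rintro hx _ ⟨y, rfl⟩
      show ⟪x, B y⟫_ℂ = 0
      rw [← h2, ContinuousLinearMap.adjoint_inner_right, hx, inner_zero_left]
  have hclos : Wᗮ.starProjection (dl 1 : E2 G) ∈
      closure ((LinearMap.range (B : E2 G →ₗ[ℂ] E2 G)) : Set (E2 G)) := by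
    rw [← Submodule.topologicalClosure_coe]
    have h2 : Wᗮ.starProjection (dl 1 : E2 G) ∈ Wᗮ := Submodule.starProjection_apply_mem _ _
    have h3 : Wᗮ = (LinearMap.range (B : E2 G →ₗ[ℂ] E2 G)).topologicalClosure := by
      rw [← Submodule.orthogonal_orthogonal_eq_closure, hWB]
    rw [← h3]
    exact h2
  rw [Metric.mem_closure_iff] at hclos
  obtain ⟨w, ⟨v, hv⟩, hw⟩ := hclos (η / 2) (by positivity)
  set ε : ℝ := η / (2 * (2 * (‖v‖ + 1))) with hε
  have hε0 : 0 < ε := by positivity
  obtain ⟨T, hT, hTc, hTB, hTB', hTn⟩ := inv_sqrt B hB0 ε hε0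
  have h1 := key ε hε0 T hT hTc hTB hTB'
  have hTadj : ContinuousLinearMap.adjoint T = T := hT
  have hd1 : ‖(dl 1 : E2 G)‖ = 1 := norm_dl 1
  -- `ε T²` is a contraction
  have hcontr : ∀ f, ‖((ε : ℂ) • (T * T)) f‖ ≤ ‖f‖ := fun f =>
    ((((ε : ℂ) • (T * T)).le_opNorm f).trans
      (mul_le_mul_of_nonneg_right hTn (norm_nonneg _))).trans (one_mul _).le
  -- `ε T²` is the identity on `W`
  have hidW : ((ε : ℂ) • (T * T)) (W.starProjection (dl 1)) = W.starProjection (dl (1:G)) := by
    have h2 : W.starProjection (dl (1:G)) ∈ W := Submodule.starProjection_apply_mem _ _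
    have h3 : B (W.starProjection (dl (1:G))) = 0 := (hBW _).2 h2
    have h5 : (ε : ℂ) • (T * T) = 1 - T * T * B := by rw [← hTB]; abel
    rw [h5]
    show W.starProjection (dl (1:G)) - (T * T) (B (W.starProjection (dl (1:G)))) = _
    rw [h3, map_zero, sub_zero]
  have h2 : ε * ‖T (dl 1)‖ ^ 2 ≤ kd W + ‖((ε : ℂ) • (T * T)) (Wᗮ.starProjection (dl 1))‖ := by
    have h3 : ⟪dl (1:G), ((ε : ℂ) • (T * T)) (dl 1)⟫_ℂ = ((ε * ‖T (dl 1)‖ ^ 2 : ℝ) : ℂ) := by
      show ⟪dl (1:G), (ε : ℂ) • T (T (dl 1))⟫_ℂ = _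
      rw [inner_smul_right, ← ContinuousLinearMap.adjoint_inner_left, hTadj,
        inner_self_eq_norm_sq_to_K]
      push_cast
      rfl
    have h4 : W.starProjection (dl (1:G)) + Wᗮ.starProjection (dl 1) = dl 1 :=
      Submodule.starProjection_add_starProjection_orthogonal _
    have h5 : ((ε : ℂ) • (T * T)) (dl (1:G)) = W.starProjection (dl (1:G))
        + ((ε : ℂ) • (T * T)) (Wᗮ.starProjection (dl 1)) := by
      conv_lhs => rw [← h4, map_add, hidW]
    rw [h5, inner_add_right, kd_eq] at h3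
    have h6 := norm_inner_le_norm (𝕜 := ℂ) (dl (1:G))
      (((ε : ℂ) • (T * T)) (Wᗮ.starProjection (dl 1)))
    rw [hd1, one_mul] at h6
    have h7 : ⟪dl (1:G), ((ε : ℂ) • (T * T)) (Wᗮ.starProjection (dl 1))⟫_ℂ
        = ((ε * ‖T (dl 1)‖ ^ 2 - kd W : ℝ) : ℂ) := by
      push_cast
      push_cast at h3
      rw [← h3]
      ring
    rw [h7, Complex.norm_real] at h6
    have h8 := (le_abs_self _).trans h6
    linarith
  have h3 : ‖((ε : ℂ) • (T * T)) w‖ ≤ η / 2 := by
    have h4 : ((ε : ℂ) • (T * T)) w = (ε : ℂ) • (v - ((ε : ℂ) • (T * T)) v) := by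
      have h5 : T * T * B = 1 - (ε : ℂ) • (T * T) := by rw [← hTB]; abel
      have h6 : (T * T) w = (T * T * B) v := by rw [← hv]; rfl
      show (ε : ℂ) • ((T * T) w) = _
      rw [h6, h5]
      rfl
    rw [h4, norm_smul, Complex.norm_real, Real.norm_of_nonneg hε0.le]
    have h5 : ‖v - ((ε : ℂ) • (T * T)) v‖ ≤ 2 * (‖v‖ + 1) := by
      refine (norm_sub_le _ _).trans ?_
      have := hcontr v
      linarith
    calc ε * ‖v - ((ε : ℂ) • (T * T)) v‖ ≤ ε * (2 * (‖v‖ + 1)) :=
          mul_le_mul_of_nonneg_left h5 hε0.le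
      _ = η / 2 := by
          rw [hε]
          field_simp
  have h4 : ‖((ε : ℂ) • (T * T)) (Wᗮ.starProjection (dl 1))‖ ≤ η := by
    have h5 : ((ε : ℂ) • (T * T)) (Wᗮ.starProjection (dl (1:G)))
        = ((ε : ℂ) • (T * T)) (Wᗮ.starProjection (dl 1) - w) + ((ε : ℂ) • (T * T)) w := by
      rw [← map_add, sub_add_cancel]
    rw [h5]
    refine (norm_add_le _ _).trans ?_
    have h6 := hcontr (Wᗮ.starProjection (dl 1) - w)
    rw [dist_eq_norm] at hw
    linarith
  linarith

end Pool.Agent.D0H79.KC
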