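import Pool.Agent.D0H79.KC.Abs

/-!
Parts of an element of the group algebra on the left cosets of a subgroup.
-/

set_option autoImplicit false
set_option linter.unusedSectionVars false

open scoped ENNReal InnerProductSpace
open Filter Topology

noncomputable section

namespace Pool.Agent.D0H79.KC

open H61R3NG

universe u

variable {G : Type u}

open Classical in
/-- restriction to a set -/
def prl (X : Set G) : E2 G →ₗ[ℂ] E2 G where
  toFun f := ⟨fun x => if x ∈ X then f x else 0, by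
    have h := lp.memℓp f
    rw [memℓp_gen_iff (by norm_num)] at h
    refine memℓp_gen (Summable.of_nonneg_of_le (fun x => by positivity) (fun x => ?_) h)
    show ‖(if x ∈ X then f x else 0 : ℂ)‖ ^ (2:ℝ≥0∞).toReal ≤ ‖f x‖ ^ (2:ℝ≥0∞).toReal
    split_ifs with hx
    · exact le_rfl
    · rw [norm_zero, Real.zero_rpow (by norm_num)]
      positivity⟩
  map_add' f g := by
    apply lp.ext
    funext x
    show (if x ∈ X then (f + g : E2 G) x else 0) = (if x ∈ X then f x else 0) +
      (if x ∈ X then g x else 0)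
    split_ifs
    · rfl
    · simp
  map_smul' c f := by
    apply lp.ext
    funext x
    show (if x ∈ X then (c • f : E2 G) x else 0) = c • (if x ∈ X then f x else 0)
    split_ifs
    · rfl
    · simp

open Classical in
lemma prl_apply (X : Set G) (f : E2 G) (x : G) : prl X f x = if x ∈ X then f x else 0 := rfl

lemma prl_norm (X : Set G) (f : E2 G) : ‖prl X f‖ ≤ 1 * ‖f‖ := by
  classical
  rw [one_mul, lp.norm_eq_tsum_rpow (by norm_num), lp.norm_eq_tsum_rpow (by norm_num)]
  refine Real.rpow_le_rpow (tsum_nonneg fun x => by positivity) ?_ (by norm_num)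
  have h := lp.memℓp f
  rw [memℓp_gen_iff (by norm_num)] at h
  have h' := lp.memℓp (prl X f)
  rw [memℓp_gen_iff (by norm_num)] at h'
  refine h'.tsum_le_tsum (fun x => ?_) h
  rw [prl_apply]
  split_ifs with hx
  · exact le_rfl
  · rw [norm_zero, Real.zero_rpow (by norm_num)]
    positivity

/-- restriction to a set, as a bounded operator -/
def Pr (X : Set G) : E2 G →L[ℂ] E2 G := (prl X).mkContinuous 1 (prl_norm X)

open Classical in
lemma Pr_apply (X : Set G) (f : E2 G) (x : G) : Pr X f x = if x ∈ X then f x else 0 := rfl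

lemma Pr_adj (X : Set G) : ContinuousLinearMap.adjoint (Pr X) = Pr X := by
  classical
  symm
  rw [ContinuousLinearMap.eq_adjoint_iff]
  intro f g
  rw [lp.inner_eq_tsum, lp.inner_eq_tsum]
  congr 1
  funext x
  rw [Pr_apply, Pr_apply]
  split_ifs <;> simp

variable [Group G]

/-- The convolution operator of a finitely supported function. -/
def Tf (a : G →₀ ℂ) : E2 G →L[ℂ] E2 G := Top G (MonoidAlgebra.ofCoeff a)

lemma Tf_apply (a : G →₀ ℂ) (f : E2 G) (y : G) :
    Tf a f y = ∑ x ∈ a.support, a x * f (x⁻¹ * y) := Top_apply_apply _ _ _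

lemma Tf_eq (a : G →₀ ℂ) : Tf a = ∑ x ∈ a.support, a x • Lhom G x := by
  ext1 f
  rw [_root_.sum_apply]
  exact Top_apply _ _

lemma Com_Tf (a : G →₀ ℂ) : Com (Tf a) := Com_Top _

open Classical in
/-- the part on a left coset -/
def part (H : Subgroup G) (a : G →₀ ℂ) (q : G ⧸ H) : G →₀ ℂ :=
  a.filter (fun x => (x : G ⧸ H) = q)

open Classical in
/-- the left cosets that meet the support -/
def cosets (H : Subgroup G) (a : G →₀ ℂ) : Finset (G ⧸ H) :=
  a.support.image (fun x : G => (QuotientGroup.mk x : G ⧸ H))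

lemma mem_cosets (H : Subgroup G) (a : G →₀ ℂ) (x : G) (hx : x ∈ a.support) :
    (x : G ⧸ H) ∈ cosets H a := by
  classical
  exact Finset.mem_image.2 ⟨x, hx, rfl⟩

lemma part_support (H : Subgroup G) (a : G →₀ ℂ) (q : G ⧸ H) (x : G) :
    x ∈ (part H a q).support ↔ x ∈ a.support ∧ (x : G ⧸ H) = q := by
  classical
  unfold part
  rw [Finsupp.support_filter, Finset.mem_filter]

lemma Tf_sum (H : Subgroup G) (a : G →₀ ℂ) : Tf a = ∑ q ∈ cosets H a, Tf (part H a q) := by
  classical
  rw [Tf_eq, ← Finset.sum_fiberwise_of_maps_to (s := a.support) (t := cosets H a)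
    (g := fun x => (x : G ⧸ H)) (fun x hx => mem_cosets H a x hx)]
  refine Finset.sum_congr rfl fun q _ => ?_
  rw [Tf_eq]
  have h1 : (part H a q).support
      = a.support.filter (fun x : G => (QuotientGroup.mk x : G ⧸ H) = q) := by
    ext x
    rw [part_support, Finset.mem_filter]
  rw [h1]
  refine Finset.sum_congr rfl fun x hx => ?_
  have h2 : part H a q x = a x :=
    Finsupp.filter_apply_pos (fun x : G => (x : G ⧸ H) = q) _ (Finset.mem_filter.1 hx).2
  rw [h2]

/-- the set of elements of a coset -/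
def cs (H : Subgroup G) (q : G ⧸ H) : Set G := {x | (x : G ⧸ H) = q}

lemma mem_cs (H : Subgroup G) (q : G ⧸ H) (x : G) : x ∈ cs H q ↔ (x : G ⧸ H) = q := Iff.rfl

lemma Tf_Pr (H : Subgroup G) (a : G →₀ ℂ) (q : G ⧸ H) :
    Tf (part H a q) * Pr (H : Set G) = Pr (cs H q) * Tf (part H a q) := by
  classical
  ext1 f
  apply lp.ext
  funext y
  show Tf (part H a q) (Pr (H : Set G) f) y = Pr (cs H q) (Tf (part H a q) f) y
  rw [Pr_apply, Tf_apply, Tf_apply]
  have h1 : ∀ x ∈ (part H a q).support, (x⁻¹ * y ∈ (H : Set G) ↔ y ∈ cs H q) := by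
    intro x hx
    rw [mem_cs, ← ((part_support H a q x).1 hx).2]
    rw [eq_comm, QuotientGroup.eq]
    rfl
  split_ifs with hy
  · refine Finset.sum_congr rfl fun x hx => ?_
    rw [Pr_apply, if_pos ((h1 x hx).2 hy)]
  · refine Finset.sum_eq_zero fun x hx => ?_
    rw [Pr_apply, if_neg (fun h => hy ((h1 x hx).1 h)), mul_zero]

lemma comm_part (H : Subgroup G) (a : G →₀ ℂ) (q : G ⧸ H) :
    (ContinuousLinearMap.adjoint (Tf (part H a q)) * Tf (part H a q)) * Pr (H : Set G)
      = Pr (H : Set G) * (ContinuousLinearMap.adjoint (Tf (part H a q)) * Tf (part H a q)) := by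
  set S := Tf (part H a q) with hS
  have h1 : S * Pr (H : Set G) = Pr (cs H q) * S := Tf_Pr H a q
  have h2 : Pr (H : Set G) * ContinuousLinearMap.adjoint S
      = ContinuousLinearMap.adjoint S * Pr (cs H q) := by
    have h3 := congrArg ContinuousLinearMap.adjoint h1
    rw [ContinuousLinearMap.mul_def, ContinuousLinearMap.mul_def, ContinuousLinearMap.adjoint_comp,
      ContinuousLinearMap.adjoint_comp, Pr_adj, Pr_adj] at h3
    exact h3
  rw [mul_assoc, h1, ← mul_assoc, ← h2, mul_assoc]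

lemma norm_sq_sum {E ι : Type*} [NormedAddCommGroup E] [InnerProductSpace ℂ E] (s : Finset ι)
    (v : ι → E) (h : ∀ i ∈ s, ∀ j ∈ s, i ≠ j → ⟪v i, v j⟫_ℂ = 0) :
    ‖∑ i ∈ s, v i‖ ^ 2 = ∑ i ∈ s, ‖v i‖ ^ 2 := by
  classical
  have h1 : ⟪∑ i ∈ s, v i, ∑ i ∈ s, v i⟫_ℂ = ((∑ i ∈ s, ‖v i‖ ^ 2 : ℝ) : ℂ) := by
    rw [sum_inner]
    push_cast
    refine Finset.sum_congr rfl fun i hi => ?_
    rw [inner_sum, Finset.sum_eq_single i (fun j hj hji => h i hi j hj hji.symm)
      (fun h => absurd hi h), inner_self_eq_norm_sq_to_K]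
    rfl
  have h2 : ((‖∑ i ∈ s, v i‖ ^ 2 : ℝ) : ℂ) = ((∑ i ∈ s, ‖v i‖ ^ 2 : ℝ) : ℂ) := by
    rw [← h1, inner_self_eq_norm_sq_to_K]
    norm_cast
  exact Complex.ofReal_injective h2

lemma orth_part (H : Subgroup G) (a : G →₀ ℂ) (u : E2 G) (hu : Pr (H : Set G) u = u) :
    ‖(∑ q ∈ cosets H a, Tf (part H a q)) u‖ ^ 2 = ∑ q ∈ cosets H a, ‖Tf (part H a q) u‖ ^ 2 := by
  classical
  rw [_root_.sum_apply]
  apply norm_sq_sum
  intro p _ q _ hpq
  have h1 : ∀ q : G ⧸ H, Tf (part H a q) u = Pr (cs H q) (Tf (part H a q) u) := by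
    intro q
    have h2 := congrArg (fun T : E2 G →L[ℂ] E2 G => T u) (Tf_Pr H a q)
    have h3 : Tf (part H a q) (Pr (H : Set G) u) = Pr (cs H q) (Tf (part H a q) u) := h2
    rw [hu] at h3
    exact h3
  rw [h1 p, h1 q, lp.inner_eq_tsum]
  have h4 : ∀ x : G, ⟪(Pr (cs H p) (Tf (part H a p) u)) x,
      (Pr (cs H q) (Tf (part H a q) u)) x⟫_ℂ = 0 := by
    intro x
    rw [Pr_apply, Pr_apply]
    by_cases hx : x ∈ cs H p
    · have hx2 : x ∉ cs H q := fun h => hpq (hx.symm.trans h)
      rw [if_neg hx2, inner_zero_right]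
    · rw [if_neg hx, inner_zero_left]
  simp only [h4, tsum_zero]

/-- The functions that all the parts of `a` on the cosets of `H` annihilate. -/
def joint (H : Subgroup G) (a : G →₀ ℂ) : Submodule ℂ (E2 G) :=
  ⨅ q : G ⧸ H, LinearMap.ker (Tf (part H a q) : E2 G →ₗ[ℂ] E2 G)

lemma mem_joint (H : Subgroup G) (a : G →₀ ℂ) (f : E2 G) :
    f ∈ joint H a ↔ ∀ q, Tf (part H a q) f = 0 := by
  unfold joint
  rw [Submodule.mem_iInf]
  rfl

instance joint_proj (H : Subgroup G) (a : G →₀ ℂ) : (joint H a).HasOrthogonalProjection := by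
  have h : IsClosed (joint H a : Set (E2 G)) := by
    have h1 : (joint H a : Set (E2 G)) = ⋂ q : G ⧸ H, {f | Tf (part H a q) f = 0} := by
      ext f
      rw [SetLike.mem_coe, mem_joint, Set.mem_iInter]
      rfl
    rw [h1]
    exact isClosed_iInter fun q => isClosed_eq (Tf (part H a q)).continuous continuous_const
  have : CompleteSpace (joint H a) := h.completeSpace_coe
  infer_instance

lemma part_zero (H : Subgroup G) (a : G →₀ ℂ) (q : G ⧸ H) (hq : q ∉ cosets H a) :
    part H a q = 0 := by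
  classical
  rw [← Finsupp.support_eq_empty, Finset.eq_empty_iff_forall_notMem]
  intro x hx
  rw [part_support] at hx
  exact hq (hx.2 ▸ mem_cosets H a x hx.1)

lemma Tf_zero : Tf (0 : G →₀ ℂ) = 0 := by
  rw [Tf_eq]
  simp

/-- **The coset bound.** -/
theorem coset_bound (H : Subgroup G) (a : G →₀ ℂ) :
    1 - kd (joint H a) ≤ ((cosets H a).card : ℝ) *
      (1 - kd (LinearMap.ker (Tf a : E2 G →ₗ[ℂ] E2 G))) := by
  classical
  have h := abs_bound (cosets H a) (fun q => Tf (part H a q)) (fun q => Com_Tf _)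
    (Pr (H : Set G)) (by
      apply lp.ext
      funext y
      rw [Pr_apply, dl_apply]
      by_cases hy : y = 1
      · subst hy
        rw [if_pos (show (1:G) ∈ (H : Set G) from H.one_mem)]
      · rw [if_neg hy]
        split_ifs <;> rfl)
    (fun q _ => comm_part H a q) (fun u hu => orth_part H a u hu) (joint H a) (by
      intro f
      rw [mem_joint]
      refine ⟨fun h q _ => h q, fun h q => ?_⟩
      by_cases hq : q ∈ cosets H a
      · exact h q hq
      · rw [part_zero H a q hq, Tf_zero]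
        rfl)
  have h2 : kd (LinearMap.ker ((∑ q ∈ cosets H a, Tf (part H a q) : E2 G →L[ℂ] E2 G) :
      E2 G →ₗ[ℂ] E2 G)) = kd (LinearMap.ker (Tf a : E2 G →ₗ[ℂ] E2 G)) :=
    kd_congr _ _ (by rw [← Tf_sum])
  rw [h2] at h
  exact h

end Pool.Agent.D0H79.KC
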