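import Pool.Agent.D0H79.KC.Cos
import Pool.Agent.W649.ZL.Supp

/-!
The energy inequality, and elements of a coset of a subgroup without analytic zero divisors.
-/

set_option autoImplicit false
set_option linter.unusedSectionVars false

open scoped ENNReal InnerProductSpace
open Filter Topology

noncomputable section

namespace Pool.Agent.D0H79.KC

open H61R3NG

universe u

variable {G : Type u} [Group G]

lemma Tf_dl (a : G →₀ ℂ) (y x : G) : Tf a (dl y) x = a (x * y⁻¹) := by
  classical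
  rw [Tf_apply]
  have h1 : ∀ s ∈ a.support, a s * dl y (s⁻¹ * x) = if s = x * y⁻¹ then a (x * y⁻¹) else 0 := by
    intro s _
    rw [dl_apply]
    by_cases h : s = x * y⁻¹
    · subst h
      simp
    · have h2 : ¬ (s⁻¹ * x = y) := by
        intro h3
        apply h
        rw [← h3]
        group
      rw [if_neg h2, if_neg h, mul_zero]
  rw [Finset.sum_congr rfl h1, Finset.sum_ite_eq']
  by_cases h : x * y⁻¹ ∈ a.support
  · rw [if_pos h]
  · rw [if_neg h, Finsupp.notMem_support_iff.1 h]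

/-- the correlation of `a` -/
def corr (a : G →₀ ℂ) (y : G) : ℂ := ∑ s ∈ a.support, (starRingEnd ℂ) (a s) * a (s * y)

lemma AA_apply (a : G →₀ ℂ) (y : G) :
    (ContinuousLinearMap.adjoint (Tf a) (Tf a (dl 1))) y = corr a y := by
  classical
  rw [← inner_dl_left, ContinuousLinearMap.adjoint_inner_right, lp.inner_eq_tsum]
  have h1 : ∀ x : G, ⟪(Tf a (dl y)) x, (Tf a (dl 1)) x⟫_ℂ
      = (starRingEnd ℂ) (a (x * y⁻¹)) * a x := by
    intro x
    rw [Tf_dl, Tf_dl, inv_one, mul_one, RCLike.inner_apply, mul_comm]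
  simp only [h1]
  rw [← (Equiv.mulRight y).tsum_eq]
  simp only [Equiv.coe_mulRight, mul_inv_cancel_right]
  rw [tsum_eq_sum (s := a.support)]
  · rfl
  · intro s hs
    rw [Finsupp.notMem_support_iff.1 hs]
    simp

lemma corr_one (a : G →₀ ℂ) : corr a 1 = ((∑ s ∈ a.support, ‖a s‖ ^ 2 : ℝ) : ℂ) := by
  unfold corr
  push_cast
  refine Finset.sum_congr rfl fun s _ => ?_
  rw [mul_one, Complex.conj_mul']

open Classical in
/-- the quotients of elements of the support -/
def quo (a : G →₀ ℂ) : Finset G :=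
  (a.support ×ˢ a.support).image fun p => p.1⁻¹ * p.2

lemma corr_zero (a : G →₀ ℂ) (y : G) (hy : y ∉ quo a) : corr a y = 0 := by
  classical
  unfold corr
  refine Finset.sum_eq_zero fun s hs => ?_
  by_cases h : s * y ∈ a.support
  · exfalso
    apply hy
    exact Finset.mem_image.2 ⟨(s, s * y), Finset.mk_mem_product hs h, by simp⟩
  · rw [Finsupp.notMem_support_iff.1 h, mul_zero]

/-- **The energy inequality.** -/
theorem energy (a : G →₀ ℂ) :
    (∑ s ∈ a.support, ‖a s‖ ^ 2) ^ 2 ≤ (∑ y ∈ quo a, ‖corr a y‖ ^ 2) *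
      (1 - kd (LinearMap.ker (Tf a : E2 G →ₗ[ℂ] E2 G))) := by
  classical
  set T := Tf a with hT
  set V := LinearMap.ker (T : E2 G →ₗ[ℂ] E2 G) with hV
  set w : E2 G := ContinuousLinearMap.adjoint T (T (dl 1)) with hw
  have hwn : ‖w‖ ^ 2 = ∑ y ∈ quo a, ‖corr a y‖ ^ 2 := by
    have h1 : ‖w‖ ^ 2 = ∑' y, ‖w y‖ ^ 2 := by
      have h2 := lp.norm_rpow_eq_tsum (p := 2) (by norm_num) w
      simpa using h2
    rw [h1, tsum_eq_sum (s := quo a)]
    · refine Finset.sum_congr rfl fun y _ => ?_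
      rw [hw, AA_apply]
    · intro y hy
      rw [hw, AA_apply, corr_zero a y hy]
      simp
  have hworth : w ∈ Vᗮ := by
    rw [Submodule.mem_orthogonal']
    intro v hv
    rw [hw, ContinuousLinearMap.adjoint_inner_left]
    have h1 : T v = 0 := hv
    rw [h1, inner_zero_right]
  have h1 : ⟪w, dl (1:G)⟫_ℂ = ((∑ s ∈ a.support, ‖a s‖ ^ 2 : ℝ) : ℂ) := by
    rw [inner_dl_right, hw, AA_apply, corr_one, Complex.conj_ofReal]
  have h2 : ⟪w, dl (1:G)⟫_ℂ = ⟪w, Vᗮ.starProjection (dl 1)⟫_ℂ := by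
    rw [← Submodule.inner_starProjection_left_eq_right]
    rw [Submodule.starProjection_eq_self_iff.2 hworth]
  have h3 : ‖Vᗮ.starProjection (dl (1:G))‖ ^ 2 = 1 - kd V := kd_orth V
  have h4 := norm_inner_le_norm (𝕜 := ℂ) w (Vᗮ.starProjection (dl 1))
  rw [← h2, h1, Complex.norm_real, Real.norm_of_nonneg (by positivity)] at h4
  have h5 := pow_le_pow_left₀ (by positivity) h4 2
  rw [mul_pow, hwn, h3] at h5
  exact h5

/-- the multiplicity bound -/
theorem mult_bound (a : G →₀ ℂ) (ha : a ≠ 0) (r : ℕ)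
    (hr : ∀ g : G, g ≠ 1 → {s ∈ a.support | a (s * g) ≠ 0}.card ≤ r) :
    1 ≤ (1 + r * (1 - 1 / (a.support.card : ℝ))) *
      (1 - kd (LinearMap.ker (Tf a : E2 G →ₗ[ℂ] E2 G))) := by
  classical
  set n : ℕ := a.support.card with hn
  have hn0 : 0 < n := by
    rw [hn, Finset.card_pos]
    exact Finsupp.support_nonempty_iff.2 ha
  set ρ : ℝ := 1 - kd (LinearMap.ker (Tf a : E2 G →ₗ[ℂ] E2 G)) with hρ
  have hρ0 : 0 ≤ ρ := by
    rw [hρ, ← kd_orth]
    unfold kd
    positivity
  set N : ℝ := ∑ s ∈ a.support, ‖a s‖ ^ 2 with hN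
  have hN0 : 0 < N := by
    apply Finset.sum_pos
    · intro s hs
      have := Finsupp.mem_support_iff.1 hs
      positivity
    · exact Finsupp.support_nonempty_iff.2 ha
  have h1 := energy a
  rw [← hN, ← hρ] at h1
  -- the off-diagonal terms
  have hoff : ∀ y : G, y ≠ 1 → ‖corr a y‖ ^ 2 ≤
      r * ∑ s ∈ a.support, ‖a s‖ ^ 2 * ‖a (s * y)‖ ^ 2 := by
    intro y hy
    have h2 : corr a y = ∑ s ∈ a.support with a (s * y) ≠ 0,
        (starRingEnd ℂ) (a s) * a (s * y) := by
      unfold corr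
      rw [Finset.sum_filter_of_ne]
      intro s _ hs h0
      rw [h0, mul_zero] at hs
      exact hs rfl
    have h3 : ‖corr a y‖ ≤ ∑ s ∈ a.support with a (s * y) ≠ 0, ‖a s‖ * ‖a (s * y)‖ := by
      rw [h2]
      refine (norm_sum_le _ _).trans (le_of_eq ?_)
      refine Finset.sum_congr rfl fun s _ => ?_
      rw [norm_mul, RCLike.norm_conj]
    have h4 := pow_le_pow_left₀ (norm_nonneg _) h3 2
    have h5 := sq_sum_le_card_mul_sum_sq (s := {s ∈ a.support | a (s * y) ≠ 0})
      (f := fun s => ‖a s‖ * ‖a (s * y)‖)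
    refine h4.trans (h5.trans ?_)
    have h6 : (({s ∈ a.support | a (s * y) ≠ 0}.card : ℕ) : ℝ) ≤ r := by
      have := hr y hy
      convert (Nat.cast_le (α := ℝ)).2 this
    have h7 : ∑ s ∈ a.support with a (s * y) ≠ 0, (‖a s‖ * ‖a (s * y)‖) ^ 2
        ≤ ∑ s ∈ a.support, ‖a s‖ ^ 2 * ‖a (s * y)‖ ^ 2 := by
      have h8 : ∀ s, (‖a s‖ * ‖a (s * y)‖) ^ 2 = ‖a s‖ ^ 2 * ‖a (s * y)‖ ^ 2 :=
        fun s => mul_pow _ _ _
      simp only [h8]
      exact Finset.sum_le_sum_of_subset_of_nonneg (Finset.filter_subset _ _)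
        (fun _ _ _ => by positivity)
    exact mul_le_mul h6 h7 (Finset.sum_nonneg fun _ _ => by positivity) (by positivity)
  have hsum : ∑ y ∈ quo a, ‖corr a y‖ ^ 2
      ≤ N ^ 2 + r * (N ^ 2 - N ^ 2 / n) := by
    have h2 : ∑ y ∈ quo a, ‖corr a y‖ ^ 2 ≤ ‖corr a 1‖ ^ 2
        + ∑ y ∈ (quo a).erase 1, ‖corr a y‖ ^ 2 := by
      by_cases h3 : (1:G) ∈ quo a
      · exact (Finset.add_sum_erase _ (fun y => ‖corr a y‖ ^ 2) h3).ge
      · rw [Finset.erase_eq_of_notMem h3]
        have : 0 ≤ ‖corr a 1‖ ^ 2 := by positivity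
        linarith
    have h3 : ‖corr a 1‖ ^ 2 = N ^ 2 := by
      rw [corr_one, Complex.norm_real, Real.norm_of_nonneg (by positivity)]
    have h4 : ∑ y ∈ (quo a).erase 1, ‖corr a y‖ ^ 2
        ≤ r * ∑ y ∈ (quo a).erase 1, ∑ s ∈ a.support, ‖a s‖ ^ 2 * ‖a (s * y)‖ ^ 2 := by
      rw [Finset.mul_sum]
      exact Finset.sum_le_sum fun y hy => hoff y (Finset.ne_of_mem_erase hy)
    have h5 : ∑ y ∈ (quo a).erase 1, ∑ s ∈ a.support, ‖a s‖ ^ 2 * ‖a (s * y)‖ ^ 2
        ≤ ∑ s ∈ a.support, ‖a s‖ ^ 2 * (N - ‖a s‖ ^ 2) := by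
      rw [Finset.sum_comm]
      refine Finset.sum_le_sum fun s hs => ?_
      rw [← Finset.mul_sum]
      refine mul_le_mul_of_nonneg_left ?_ (by positivity)
      have h6 : N - ‖a s‖ ^ 2 = ∑ t ∈ a.support.erase s, ‖a t‖ ^ 2 := by
        rw [hN, ← Finset.add_sum_erase _ _ hs]
        ring
      rw [h6]
      have h7 : ∑ y ∈ (quo a).erase 1, ‖a (s * y)‖ ^ 2
          = ∑ t ∈ ((quo a).erase 1).image (fun y => s * y), ‖a t‖ ^ 2 := by
        rw [Finset.sum_image fun x _ y _ h => mul_left_cancel h]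
      rw [h7]
      have h8 : ∑ t ∈ ((quo a).erase 1).image (fun y => s * y), ‖a t‖ ^ 2
          = ∑ t ∈ (((quo a).erase 1).image (fun y => s * y)).filter (fun t => a t ≠ 0),
            ‖a t‖ ^ 2 := by
        rw [Finset.sum_filter_of_ne]
        intro t _ ht h0
        rw [h0] at ht
        simp at ht
      rw [h8]
      refine Finset.sum_le_sum_of_subset_of_nonneg (fun t ht => ?_) (fun _ _ _ => by positivity)
      rw [Finset.mem_filter, Finset.mem_image] at ht
      obtain ⟨⟨y, hy, rfl⟩, h0⟩ := ht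
      rw [Finset.mem_erase, Finsupp.mem_support_iff]
      exact ⟨fun h => Finset.ne_of_mem_erase hy (mul_eq_left.1 h), h0⟩
    have h6 : ∑ s ∈ a.support, ‖a s‖ ^ 2 * (N - ‖a s‖ ^ 2) ≤ N ^ 2 - N ^ 2 / n := by
      have h7 : ∑ s ∈ a.support, ‖a s‖ ^ 2 * (N - ‖a s‖ ^ 2)
          = N ^ 2 - ∑ s ∈ a.support, (‖a s‖ ^ 2) ^ 2 := by
        rw [sq N]
        nth_rewrite 2 [hN]
        rw [Finset.sum_mul, ← Finset.sum_sub_distrib]
        refine Finset.sum_congr rfl fun s _ => ?_
        ring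
      have h8 := sq_sum_le_card_mul_sum_sq (s := a.support) (f := fun s => ‖a s‖ ^ 2)
      rw [← hN, ← hn] at h8
      have h9 : N ^ 2 / n ≤ ∑ s ∈ a.support, (‖a s‖ ^ 2) ^ 2 := by
        rw [div_le_iff₀ (by exact_mod_cast hn0)]
        linarith
      rw [h7]
      linarith
    rw [h3] at h2
    have h7 : (r : ℝ) * ∑ y ∈ (quo a).erase 1, ∑ s ∈ a.support, ‖a s‖ ^ 2 * ‖a (s * y)‖ ^ 2
        ≤ r * (N ^ 2 - N ^ 2 / n) := mul_le_mul_of_nonneg_left (h5.trans h6) (by positivity)
    linarith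
  have h2 : N ^ 2 ≤ (N ^ 2 + r * (N ^ 2 - N ^ 2 / n)) * ρ :=
    h1.trans (mul_le_mul_of_nonneg_right hsum hρ0)
  have h3 : (N ^ 2 + r * (N ^ 2 - N ^ 2 / n)) * ρ = N ^ 2 * ((1 + r * (1 - 1 / (n : ℝ))) * ρ) := by
    ring
  rw [h3] at h2
  have h4 : 0 < N ^ 2 := by positivity
  by_contra hcon
  push Not at hcon
  nlinarith

/-- `H` has no analytic zero divisors (functional form) -/
def Reg {K : Type*} [Group K] (b : K →₀ ℂ) : Prop :=
  ∀ f : K → ℂ, Memℓp f 2 → f ≠ 0 → ∃ g : K, ∑ k ∈ b.support, b k * f (k⁻¹ * g) ≠ 0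

lemma Tf_inj (a : G →₀ ℂ) (h : Reg a) (f : E2 G) (hf : Tf a f = 0) : f = 0 := by
  by_contra h0
  obtain ⟨g, hg⟩ := h (fun x => f x) (lp.memℓp f) (fun h1 => h0 (by
    apply lp.ext
    exact h1))
  apply hg
  rw [← Tf_apply a f g, hf]
  rfl

/-- elements of a coset of a subgroup without analytic zero divisors -/
lemma reg_coset (H : Subgroup G) (hH : ∀ b : H →₀ ℂ, b ≠ 0 → Reg b) (t : G) (a : G →₀ ℂ)
    (hs : ∀ x ∈ a.support, t⁻¹ * x ∈ H) (ha : a ≠ 0) : Reg a := by
  classical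
  intro f hf hf0
  obtain ⟨x0, hx0⟩ : ∃ x, f x ≠ 0 := by
    by_contra hcon
    push Not at hcon
    exact hf0 (funext hcon)
  have hinj : Function.Injective (fun h : H => t * (h : G)) := fun x y h =>
    Subtype.ext (mul_left_cancel h)
  set b : H →₀ ℂ := a.comapDomain (fun h : H => t * (h : G)) (hinj.injOn) with hb
  have hbv : ∀ h : H, b h = a (t * h) := fun h => rfl
  have hsupp : a.support = b.support.image (fun h : H => t * (h : G)) := by
    ext x
    rw [Finset.mem_image]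
    constructor
    · intro hx
      refine ⟨⟨t⁻¹ * x, hs x hx⟩, ?_, by simp⟩
      rw [Finsupp.mem_support_iff, hbv]
      simpa using hx
    · rintro ⟨h, hh, rfl⟩
      rw [Finsupp.mem_support_iff] at hh ⊢
      rwa [hbv] at hh
  have hb0 : b ≠ 0 := by
    intro h0
    apply ha
    rw [← Finsupp.support_eq_empty, hsupp, h0]
    simp
  have hf' : Memℓp (fun h : H => f ((h : G) * x0)) 2 := by
    rw [memℓp_gen_iff (by norm_num)] at hf ⊢
    exact hf.comp_injective (i := fun h : H => (h : G) * x0) fun x y h =>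
      Subtype.ext (mul_right_cancel h)
  obtain ⟨h0, hh0⟩ := hH b hb0 _ hf' (fun h => hx0 (by
    have := congrFun h 1
    simpa using this))
  refine ⟨t * h0 * x0, ?_⟩
  rw [hsupp, Finset.sum_image fun x _ y _ h => hinj h]
  have h1 : ∀ k : H, a (t * k) * f ((t * (k : G))⁻¹ * (t * h0 * x0))
      = b k * f (((k⁻¹ * h0 : H) : G) * x0) := by
    intro k
    rw [hbv]
    congr 2
    push_cast
    group
  simp only [h1]
  exact hh0

lemma kd_bot' (V : Submodule ℂ (E2 G)) [V.HasOrthogonalProjection] (h : ∀ f ∈ V, f = 0) :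
    kd V = 0 := by
  unfold kd xi
  rw [h _ (Submodule.starProjection_apply_mem _ _)]
  simp

/-- the bound for subgroups without analytic zero divisors -/
theorem azd_bound (H : Subgroup G) (hH : ∀ b : H →₀ ℂ, b ≠ 0 → Reg b) (a : G →₀ ℂ) (ha : a ≠ 0) :
    1 ≤ ((cosets H a).card : ℝ) *
      (1 - kd (LinearMap.ker (Tf a : E2 G →ₗ[ℂ] E2 G))) := by
  classical
  have h1 := coset_bound H a
  have h2 : kd (joint H a) = 0 := by
    apply kd_bot'
    intro f hf
    rw [mem_joint] at hf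
    obtain ⟨t, ht⟩ := Finsupp.support_nonempty_iff.2 ha
    have h3 : part H a (t : G ⧸ H) ≠ 0 := by
      intro h0
      have h4 : t ∈ (part H a (t : G ⧸ H)).support := (part_support _ _ _ _).2 ⟨ht, rfl⟩
      rw [h0] at h4
      simp at h4
    refine Tf_inj _ (reg_coset H hH t _ (fun x hx => ?_) h3) f (hf t)
    have h5 := ((part_support _ _ _ _).1 hx).2
    exact QuotientGroup.eq.1 h5.symm
  rw [h2, sub_zero] at h1
  exact h1

/-- infinite cyclic groups have no analytic zero divisors -/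
lemma reg_zpowers (g : G) (hg : ¬ IsOfFinOrder g) (b : Subgroup.zpowers g →₀ ℂ) (hb : b ≠ 0) :
    Reg b := by
  classical
  have hinj : Function.Injective (fun n : ℤ => g ^ n) :=
    injective_zpow_iff_not_isOfFinOrder.2 hg
  let ψ : Multiplicative ℤ →* Subgroup.zpowers g :=
    { toFun := fun n => ⟨g ^ (Multiplicative.toAdd n), ⟨_, rfl⟩⟩
      map_one' := by
        apply Subtype.ext
        simp
      map_mul' := fun m n => by
        apply Subtype.ext
        simp [zpow_add] }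
  have hψ : Function.Bijective ψ := by
    constructor
    · intro m n h
      have h1 : g ^ (Multiplicative.toAdd m) = g ^ (Multiplicative.toAdd n) :=
        congrArg Subtype.val h
      exact Multiplicative.toAdd.injective (hinj h1)
    · rintro ⟨_, ⟨n, rfl⟩⟩
      exact ⟨Multiplicative.ofAdd n, rfl⟩
  have hLI : W649.ZL.LI (Subgroup.zpowers g) := by
    intro K _ hK
    obtain ⟨k, hk⟩ := Subgroup.ne_bot_iff_exists_ne_one.1 hK
    refine ⟨(MulEquiv.ofBijective ψ hψ).symm.toMonoidHom.comp K.subtype, k, fun h => hk ?_⟩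
    have h1 : (MulEquiv.ofBijective ψ hψ).symm (k : Subgroup.zpowers g) = 1 := h
    have h2 : (k : Subgroup.zpowers g) = 1 := by
      have h3 := congrArg (MulEquiv.ofBijective ψ hψ) h1
      rwa [MulEquiv.apply_symm_apply, map_one] at h3
    exact Subtype.ext h2
  apply (W649.ZL.regular_iff b).2
  exact W649.ZL.LI_coset_injective 1 ⊤ (hLI.subgroup ⊤) b (fun x _ => Subgroup.mem_top _) hb

/-- the number of cosets of the subgroup generated by an element of infinite order -/
lemma cosets_card (g : G) (hg : ¬ IsOfFinOrder g) (a : G →₀ ℂ) :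
    (cosets (Subgroup.zpowers g) a).card + {s ∈ a.support | a (s * g) ≠ 0}.card
      ≤ a.support.card := by
  classical
  have hinj : Function.Injective (fun n : ℤ => g ^ n) :=
    injective_zpow_iff_not_isOfFinOrder.2 hg
  -- every coset contains an element `s` of the support with `s g` outside the support
  have hex : ∀ q ∈ cosets (Subgroup.zpowers g) a, ∃ s ∈ a.support, (s : G ⧸ Subgroup.zpowers g) = q ∧
      ¬ a (s * g) ≠ 0 := by
    intro q hq
    obtain ⟨t, ht, rfl⟩ := Finset.mem_image.1 hq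
    by_contra hcon
    push Not at hcon
    have hall : ∀ n : ℕ, t * g ^ n ∈ a.support := by
      intro n
      induction n with
      | zero => simpa using ht
      | succ n ih =>
        have h1 := hcon _ ih (by
          rw [QuotientGroup.eq]
          simp)
        rw [Finsupp.mem_support_iff, pow_succ, ← mul_assoc]
        exact h1
    have h2 : (Set.range fun n : ℕ => t * g ^ n).Infinite := by
      apply Set.infinite_range_of_injective
      intro m n h
      have h3 : g ^ (m : ℤ) = g ^ (n : ℤ) := by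
        rw [zpow_natCast, zpow_natCast]
        exact mul_left_cancel h
      exact_mod_cast hinj h3
    exact h2 (a.support.finite_toSet.subset (by
      rintro _ ⟨n, rfl⟩
      exact hall n))
  choose! f hf1 hf2 hf3 using hex
  have h1 : (cosets (Subgroup.zpowers g) a).card ≤ {s ∈ a.support | ¬ a (s * g) ≠ 0}.card := by
    apply Finset.card_le_card_of_injOn f
    · intro q hq
      exact Finset.mem_filter.2 ⟨hf1 q hq, hf3 q hq⟩
    · intro p hp q hq h
      rw [← hf2 p hp, ← hf2 q hq, h]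
  have h2 := Finset.card_filter_add_card_filter_not (s := a.support) (fun s => a (s * g) ≠ 0)
  omega

/-- **The bound in terms of the size of the support.** -/
theorem supp_bound (a : G →₀ ℂ) (ha : a ≠ 0)
    (htf : ∀ s ∈ a.support, ∀ t ∈ a.support, s ≠ t → ¬ IsOfFinOrder (s⁻¹ * t)) :
    2 * (a.support.card : ℝ) ≤ ((a.support.card : ℝ) ^ 2 + 1) *
      (1 - kd (LinearMap.ker (Tf a : E2 G →ₗ[ℂ] E2 G))) ∧
    (Even a.support.card → 2 ≤ (a.support.card : ℝ) *
      (1 - kd (LinearMap.ker (Tf a : E2 G →ₗ[ℂ] E2 G)))) := by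
  classical
  set n : ℕ := a.support.card with hn
  have hn0 : 0 < n := by
    rw [hn, Finset.card_pos]
    exact Finsupp.support_nonempty_iff.2 ha
  set ρ : ℝ := 1 - kd (LinearMap.ker (Tf a : E2 G →ₗ[ℂ] E2 G)) with hρ
  have hρ0 : 0 ≤ ρ := by
    rw [hρ, ← kd_orth]
    unfold kd
    positivity
  have hnR : (0:ℝ) < n := by exact_mod_cast hn0
  -- the largest multiplicity
  obtain ⟨r, hr, hr2⟩ : ∃ r : ℕ, (∀ g : G, g ≠ 1 → {s ∈ a.support | a (s * g) ≠ 0}.card ≤ r) ∧
      1 ≤ ((n : ℝ) - r) * ρ := by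
    by_cases hex : ∃ g : G, g ≠ 1 ∧ 0 < {s ∈ a.support | a (s * g) ≠ 0}.card
    · -- choose `g` with the largest multiplicity
      have hbdd : ∃ r : ℕ, ∃ g : G, g ≠ 1 ∧ 0 < {s ∈ a.support | a (s * g) ≠ 0}.card ∧
          {s ∈ a.support | a (s * g) ≠ 0}.card = r ∧
          ∀ g' : G, g' ≠ 1 → {s ∈ a.support | a (s * g') ≠ 0}.card ≤ r := by
        set P : ℕ → Prop := fun r => ∃ g : G, g ≠ 1 ∧ {s ∈ a.support | a (s * g) ≠ 0}.card = r
          with hP
        have hPn : ∀ r, P r → r ≤ n := by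
          rintro r ⟨g, _, rfl⟩
          exact Finset.card_filter_le _ _
        obtain ⟨g0, hg0, hg0'⟩ := hex
        have h1 : P (Nat.findGreatest P n) :=
          Nat.findGreatest_spec (P := P) (hPn _ ⟨g0, hg0, rfl⟩) ⟨g0, hg0, rfl⟩
        obtain ⟨g, hg, hgr⟩ := h1
        refine ⟨Nat.findGreatest P n, g, hg, ?_, hgr, ?_⟩
        · rw [hgr]
          exact lt_of_lt_of_le hg0' (Nat.le_findGreatest (hPn _ ⟨g0, hg0, rfl⟩) ⟨g0, hg0, rfl⟩)
        · intro g' hg'
          exact Nat.le_findGreatest (hPn _ ⟨g', hg', rfl⟩) ⟨g', hg', rfl⟩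
      obtain ⟨r, g, hg1, hg2, hgr, hmax⟩ := hbdd
      refine ⟨r, hmax, ?_⟩
      obtain ⟨s, hs⟩ := Finset.card_pos.1 hg2
      rw [Finset.mem_filter] at hs
      have hgo : ¬ IsOfFinOrder g := by
        have h1 := htf s hs.1 (s * g) (Finsupp.mem_support_iff.2 hs.2) (fun h => hg1 (by
          have := mul_eq_left.1 h.symm
          exact this))
        rwa [inv_mul_cancel_left] at h1
      have h1 := azd_bound (Subgroup.zpowers g) (fun b hb => reg_zpowers g hgo b hb) a ha
      have h2 := cosets_card g hgo a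
      rw [← hn, hgr] at h2
      have h3 : ((cosets (Subgroup.zpowers g) a).card : ℝ) ≤ (n : ℝ) - r := by
        have : ((cosets (Subgroup.zpowers g) a).card : ℝ) + r ≤ n := by exact_mod_cast h2
        linarith
      exact h1.trans (mul_le_mul_of_nonneg_right h3 hρ0)
    · push Not at hex
      refine ⟨0, hex, ?_⟩
      have h1 := mult_bound a ha 0 hex
      rw [← hn, ← hρ, Nat.cast_zero, zero_mul, add_zero, one_mul] at h1
      have h2 : (1:ℝ) ≤ n := by exact_mod_cast hn0
      rw [Nat.cast_zero, sub_zero]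
      nlinarith
  have h1 := mult_bound a ha r hr
  rw [← hn, ← hρ] at h1
  have h1' : (n : ℝ) ≤ ((n : ℝ) + r * (n - 1)) * ρ := by
    have h2 : ((n : ℝ) + r * (n - 1)) * ρ = n * ((1 + r * (1 - 1 / (n : ℝ))) * ρ) := by
      field_simp
    rw [h2]
    nlinarith
  have hA : 2 ≤ (n : ℝ) * ρ → 2 * (n : ℝ) ≤ ((n : ℝ) ^ 2 + 1) * ρ := by
    intro h
    nlinarith
  rcases lt_trichotomy n (2 * r + 1) with h | h | h
  · have h2 : (n : ℝ) ≤ 2 * r := by exact_mod_cast Nat.lt_succ_iff.1 h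
    have h3 : 2 ≤ (n : ℝ) * ρ := by nlinarith
    exact ⟨hA h3, fun _ => h3⟩
  · refine ⟨?_, fun he => ?_⟩
    · have h2 : (n : ℝ) = 2 * r + 1 := by exact_mod_cast h
      have h3 : (r : ℝ) = (n - 1) / 2 := by linarith
      rw [h3] at h1'
      nlinarith
    · exfalso
      rw [h] at he
      exact (Nat.not_even_iff_odd.2 ⟨r, rfl⟩) he
  · have h2 : 2 * (r : ℝ) + 2 ≤ n := by exact_mod_cast h
    have h3 : 2 ≤ (n : ℝ) * ρ := by
      have h4 : 2 * ((n : ℝ) + r * (n - 1)) ≤ n * n := by nlinarith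
      have h5 : 2 * (n : ℝ) ≤ n * (n * ρ) := by nlinarith
      nlinarith
    exact ⟨hA h3, fun _ => h3⟩

end Pool.Agent.D0H79.KC
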