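import Pool.Agent.D0H79.KC.En

/-!
The bound for cosets is attained: the sum of the elements of a finite cyclic factor.
-/

set_option autoImplicit false
set_option linter.unusedSectionVars false

open scoped ENNReal InnerProductSpace
open Filter Topology

noncomputable section

namespace Pool.Agent.D0H79.KC

open H61R3NG

universe u

/-- the dimension of a closed subspace from the distance to the basis vector at the identity -/
lemma kd_infDist {G : Type u} [Group G] (V : Submodule ℂ (E2 G)) [V.HasOrthogonalProjection] :
    1 - Metric.infDist (dl 1 : E2 G) (V : Set (E2 G)) ^ 2 = kd V := by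
  set d : E2 G := dl 1 with hd
  have h1 : Metric.infDist d (V : Set (E2 G)) = ‖d - V.starProjection d‖ := by
    rw [Submodule.starProjection_minimal, Metric.infDist_eq_iInf]
    simp only [dist_eq_norm]
    rfl
  rw [h1]
  have h2 : ‖d‖ ^ 2 = ‖V.starProjection d‖ ^ 2 + ‖Vᗮ.starProjection d‖ ^ 2 :=
    Submodule.norm_sq_eq_add_norm_sq_starProjection d V
  have h3 : Vᗮ.starProjection d = d - V.starProjection d := by
    rw [← Submodule.starProjection_orthogonal_val]
  have h4 : ‖d‖ = 1 := norm_dl 1
  rw [h3, h4] at h2
  unfold kd xi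
  rw [← hd]
  linarith

section

variable (K : Type u) [Group K] (m : ℕ) [NeZero m]

/-- the sum of the elements of the finite factor -/
def tor : (K × Multiplicative (ZMod m)) →₀ ℂ :=
  ∑ c : Multiplicative (ZMod m), Finsupp.single ((1 : K), c) 1

open Classical in
lemma tor_apply (x : K × Multiplicative (ZMod m)) : tor K m x = if x.1 = 1 then 1 else 0 := by
  classical
  unfold tor
  rw [Finsupp.finsetSum_apply]
  by_cases h : x.1 = 1
  · rw [if_pos h, Finset.sum_eq_single x.2]
    · have : ((1 : K), x.2) = x := Prod.ext h.symm rfl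
      rw [this, Finsupp.single_eq_same]
    · intro c _ hc
      rw [Finsupp.single_apply, if_neg]
      intro h1
      exact hc (congrArg Prod.snd h1)
    · intro h1
      exact absurd (Finset.mem_univ _) h1
  · rw [if_neg h]
    refine Finset.sum_eq_zero fun c _ => ?_
    rw [Finsupp.single_apply, if_neg]
    intro h1
    exact h (congrArg Prod.fst h1).symm

lemma tor_supp (x : K × Multiplicative (ZMod m)) : x ∈ (tor K m).support ↔ x.1 = 1 := by
  classical
  rw [Finsupp.mem_support_iff, tor_apply]
  by_cases h : x.1 = 1 <;> simp [h]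

lemma tor_supp_eq : (tor K m).support = Finset.univ.map ⟨fun c : Multiplicative (ZMod m) =>
    ((1 : K), c), fun _ _ h => congrArg Prod.snd h⟩ := by
  ext x
  rw [tor_supp, Finset.mem_map]
  constructor
  · intro h
    exact ⟨x.2, Finset.mem_univ _, Prod.ext h.symm rfl⟩
  · rintro ⟨c, _, rfl⟩
    rfl

lemma tor_card : (tor K m).support.card = m := by
  rw [tor_supp_eq, Finset.card_map, Finset.card_univ, Fintype.card_multiplicative, ZMod.card]

/-- the other factor -/
def fac : Subgroup (K × Multiplicative (ZMod m)) := Subgroup.prod ⊤ ⊥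

lemma mem_fac (x : K × Multiplicative (ZMod m)) : x ∈ fac K m ↔ x.2 = 1 := by
  unfold fac
  rw [Subgroup.mem_prod, Subgroup.mem_bot]
  exact ⟨fun h => h.2, fun h => ⟨Subgroup.mem_top _, h⟩⟩

lemma fac_card : (cosets (fac K m) (tor K m)).card = m := by
  classical
  unfold cosets
  rw [Finset.card_image_of_injOn, tor_card]
  intro x hx y hy h
  rw [Finset.mem_coe, tor_supp] at hx hy
  have h1 := QuotientGroup.eq.1 h
  rw [mem_fac] at h1
  have h2 : x.2⁻¹ * y.2 = 1 := h1
  exact Prod.ext (hx.trans hy.symm) (inv_mul_eq_one.1 h2)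

lemma tor_ne : tor K m ≠ 0 := by
  intro h
  have h1 := (tor_supp K m 1).2 rfl
  rw [h] at h1
  simp at h1

/-- The value of the dimension of the kernel. -/
theorem tor_dim : kd (LinearMap.ker (Tf (tor K m) :
    E2 (K × Multiplicative (ZMod m)) →ₗ[ℂ] E2 (K × Multiplicative (ZMod m)))) = 1 - 1 / (m : ℝ) := by
  classical
  have hm0 : (m : ℝ) ≠ 0 := by exact_mod_cast NeZero.ne m
  have hmpos : (0 : ℝ) < m := by exact_mod_cast Nat.pos_of_ne_zero (NeZero.ne m)
  set V := LinearMap.ker (Tf (tor K m) :
    E2 (K × Multiplicative (ZMod m)) →ₗ[ℂ] E2 (K × Multiplicative (ZMod m))) with hV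
  apply le_antisymm
  · -- the upper bound
    have h1 := coset_bound (fac K m) (tor K m)
    have h2 : kd (joint (fac K m) (tor K m)) = 0 := by
      apply kd_bot'
      intro f hf
      rw [mem_joint] at hf
      have h3 := hf ((1 : K × Multiplicative (ZMod m)) : _ ⧸ fac K m)
      have h4 : part (fac K m) (tor K m) ((1 : K × Multiplicative (ZMod m)) : _ ⧸ fac K m)
          = Finsupp.single 1 1 := by
        ext x
        by_cases hx : x = 1
        · subst hx
          rw [Finsupp.single_eq_same]
          have h5 : part (fac K m) (tor K m) ((1 : K × Multiplicative (ZMod m)) : _ ⧸ fac K m) 1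
              = tor K m 1 :=
            Finsupp.filter_apply_pos (fun x : K × Multiplicative (ZMod m) =>
              (x : _ ⧸ fac K m) = ((1 : K × Multiplicative (ZMod m)) : _ ⧸ fac K m)) _ rfl
          rw [h5, tor_apply]
          exact if_pos rfl
        · rw [Finsupp.single_apply, if_neg (fun h => hx h.symm)]
          by_contra hcon
          have h5 := (part_support _ _ _ x).1 (Finsupp.mem_support_iff.2 hcon)
          rw [tor_supp] at h5
          have h6 := QuotientGroup.eq.1 h5.2
          rw [mem_fac] at h6
          have h7 : x.2⁻¹ * 1 = 1 := h6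
          apply hx
          refine Prod.ext h5.1 ?_
          rw [mul_one] at h7
          exact inv_eq_one.1 h7
      rw [h4] at h3
      apply lp.ext
      funext y
      have h5 := Tf_apply (Finsupp.single (1 : K × Multiplicative (ZMod m)) (1 : ℂ)) f y
      rw [h3, Finsupp.support_single _ one_ne_zero, Finset.sum_singleton,
        Finsupp.single_eq_same, one_mul, inv_one, one_mul] at h5
      rw [← h5]
    rw [h2, fac_card, sub_zero] at h1
    have h3 : 1 / (m : ℝ) ≤ 1 - kd V := by
      rw [div_le_iff₀ hmpos, mul_comm]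
      exact h1
    linarith
  · -- the lower bound
    rw [← kd_infDist]
    set w : E2 (K × Multiplicative (ZMod m)) := Tf (tor K m) (dl 1) with hw
    have hwv : ∀ x, w x = if x.1 = 1 then 1 else 0 := by
      intro x
      rw [hw, Tf_dl, inv_one, mul_one, tor_apply]
    have hw2 : Tf (tor K m) w = (m : ℂ) • w := by
      apply lp.ext
      funext y
      rw [Tf_apply]
      have h1 : ∀ x ∈ (tor K m).support, tor K m x * w (x⁻¹ * y) = w y := by
        intro x hx
        rw [tor_supp] at hx
        have h2 : (x⁻¹ * y).1 = y.1 := by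
          show x.1⁻¹ * y.1 = y.1
          rw [hx, inv_one, one_mul]
        rw [tor_apply, if_pos hx, one_mul, hwv, hwv, h2]
      rw [Finset.sum_congr rfl h1, Finset.sum_const, tor_card]
      show m • w y = (m : ℂ) • w y
      rw [nsmul_eq_mul, smul_eq_mul]
    have hwn : ‖w‖ ^ 2 = m := by
      have h1 : ‖w‖ ^ 2 = ∑' y, ‖w y‖ ^ 2 := by
        have h2 := lp.norm_rpow_eq_tsum (p := 2) (by norm_num) w
        simpa using h2
      rw [h1, tsum_eq_sum (s := (tor K m).support)]
      · rw [Finset.sum_congr rfl (g := fun _ => (1:ℝ))]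
        · rw [Finset.sum_const, tor_card, nsmul_eq_mul, mul_one]
        · intro x hx
          rw [tor_supp] at hx
          rw [hwv, if_pos hx]
          simp
      · intro x hx
        rw [tor_supp] at hx
        rw [hwv, if_neg hx]
        simp
    set v : E2 (K × Multiplicative (ZMod m)) := dl 1 - ((m : ℂ)⁻¹) • w with hv
    have hvV : v ∈ V := by
      rw [hV, LinearMap.mem_ker]
      show Tf (tor K m) v = 0
      rw [hv, map_sub, map_smul, hw2, smul_smul, inv_mul_cancel₀ (by exact_mod_cast hm0), one_smul,
        ← hw, sub_self]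
    have h1 : Metric.infDist (dl 1 : E2 (K × Multiplicative (ZMod m)))
        (V : Set (E2 (K × Multiplicative (ZMod m)))) ≤ ‖((m : ℂ)⁻¹) • w‖ := by
      refine (Metric.infDist_le_dist_of_mem hvV).trans (le_of_eq ?_)
      rw [dist_eq_norm, hv, sub_sub_cancel]
    have h2 := pow_le_pow_left₀ Metric.infDist_nonneg h1 2
    have h3 : ‖((m : ℂ)⁻¹) • w‖ ^ 2 = 1 / (m : ℝ) := by
      rw [norm_smul, mul_pow, hwn, norm_inv, Complex.norm_natCast]
      field_simp
    rw [h3] at h2
    linarith

end

end Pool.Agent.D0H79.KC
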